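import Mathlib

set_option autoImplicit false

namespace Pool.Agent.Results.MP_be8152_al.NoBernsteinOperator

/-- A 4-algebra structure on the vector space `V`: a bilinear commutative multiplication `mul`
with `(x²)² = 0` for all `x`. -/
structure FourAlgebra (k V : Type*) [Field k] [AddCommGroup V] [Module k V] where
  /-- the multiplication -/
  mul : V →ₗ[k] V →ₗ[k] V
  comm : ∀ x y, mul x y = mul y x
  sq_sq : ∀ x, mul (mul x x) (mul x x) = 0

/-- `Ω` is a Bernstein operator on the 4-algebra `A`: an idempotent linear map with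
`x² Ω(x) = 0` and `Ω(x)² + Ω(x²) = x²` for all `x`. -/
structure IsBernsteinOperator {k V : Type*} [Field k] [AddCommGroup V] [Module k V]
    (A : FourAlgebra k V) (Ω : V →ₗ[k] V) : Prop where
  idem : ∀ x, Ω (Ω x) = Ω x
  sq_mul : ∀ x, A.mul (A.mul x x) (Ω x) = 0
  sq_add : ∀ x, A.mul (Ω x) (Ω x) + Ω (A.mul x x) = A.mul x x

/-- The product on `k⁸`: the nonzero products of the basis `e₀, ..., e₇` are `e₀² = e₂`,
`e₁² = e₃`, `e₀e₁ = e₄`, `e₂e₃ = -2e₅`, `e₄² = e₅`, `e₀e₂ = e₀e₃ = e₆`, `e₁e₂ = e₁e₃ = e₇`. -/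
def prod {k : Type*} [Field k] (x y : Fin 8 → k) : Fin 8 → k :=
  ![0, 0, x 0 * y 0, x 1 * y 1, x 0 * y 1 + x 1 * y 0,
    -2 * (x 2 * y 3 + x 3 * y 2) + x 4 * y 4,
    (x 2 + x 3) * y 0 + x 0 * (y 2 + y 3), (x 2 + x 3) * y 1 + x 1 * (y 2 + y 3)]

/-- The 4-algebra structure given by `prod`. -/
def example8 (k : Type*) [Field k] : FourAlgebra k (Fin 8 → k) where
  mul := LinearMap.mk₂ k prod
    (by intro x x' y; ext i; fin_cases i <;> simp [prod] <;> ring)
    (by intro c x y; ext i; fin_cases i <;> simp [prod] <;> ring)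
    (by intro x y y'; ext i; fin_cases i <;> simp [prod] <;> ring)
    (by intro c x y; ext i; fin_cases i <;> simp [prod] <;> ring)
  comm := by
    intro x y
    simp only [LinearMap.mk₂_apply]
    ext i; fin_cases i <;> simp [prod] <;> ring
  sq_sq := by
    intro x
    simp only [LinearMap.mk₂_apply]
    ext i; fin_cases i <;> simp [prod] <;> ring

/-- Over every field of characteristic different from two there is a 4-algebra structure on `k⁸`
which has no Bernstein operator. -/
theorem result (k : Type*) [Field k] (h2 : (2 : k) ≠ 0) :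
    ∃ A : FourAlgebra k (Fin 8 → k), ¬ ∃ Ω : (Fin 8 → k) →ₗ[k] (Fin 8 → k),
      IsBernsteinOperator A Ω := by
  refine ⟨example8 k, ?_⟩
  rintro ⟨Ω, hΩ⟩
  have hm : ∀ x y, (example8 k).mul x y = prod x y := fun x y => by
    simp [example8, LinearMap.mk₂_apply]
  set e0 : Fin 8 → k := ![1, 0, 0, 0, 0, 0, 0, 0] with he0
  set e1 : Fin 8 → k := ![0, 1, 0, 0, 0, 0, 0, 0] with he1
  set e3 : Fin 8 → k := ![0, 0, 0, 1, 0, 0, 0, 0] with he3
  have p11 : prod e1 e1 = e3 := by
    rw [he1, he3]; ext i; fin_cases i <;> simp [prod]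
  -- `Ω(e₀)` has no component along `e₃`
  have h0 : Ω e0 3 = 0 := by
    have h := congrFun (hΩ.sq_mul e0) 5
    rw [hm, hm] at h
    simp [prod, he0] at h
    rcases h with h | h
    · exact absurd h h2
    · exact h
  -- `Ω(e₁)` has no component along `e₁`
  have h1 : Ω e1 1 = 0 := by
    have h := congrFun (hΩ.sq_mul e1) 7
    rw [hm, hm] at h
    simp [prod, he1] at h
    exact h
  -- `Ω(e₃)` has component one along `e₃`
  have h3 : Ω e3 3 = 1 := by
    have h := congrFun (hΩ.sq_add e1) 3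
    rw [hm, hm, p11] at h
    simp [prod, he3] at h
    rw [h1] at h
    simpa [he3] using h
  -- contradiction from `x = e₀ + e₃`
  have h := congrFun (hΩ.sq_mul (e0 + e3)) 5
  rw [hm, hm, map_add] at h
  simp [prod, he0, he3] at h
  rcases h with h | h
  · exact absurd h h2
  · rw [← he0, ← he3, h0, h3] at h
    simp at h

end Pool.Agent.Results.MP_be8152_al.NoBernsteinOperator
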